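import Pool.Agent.Helper10.CR.Goals1

/-!
# Packet CR-CHAIN: the pp lattice of a local ring whose principal ideals form a chain is distributive
-/

universe u

namespace Pool.Agent.Helper97.CR

open Pool.Agent.Helper10.Width Pool.Agent.Helper72.Width Pool.Agent.Helper78.SD
open Pool.Agent.Helper10.CR

variable {S : Type u} [CommRing S]

/-- A finite nonempty family has a member dividing all the others. -/
theorem exists_dvd_all (hS : ∀ a b : S, a ∣ b ∨ b ∣ a) {ι : Type*} (f : ι → S) (s : Finset ι)
    (hs : s.Nonempty) : ∃ i ∈ s, ∀ j ∈ s, f i ∣ f j := by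
  classical
  induction hs using Finset.Nonempty.cons_induction with
  | singleton a => exact ⟨a, by simp, fun j hj => by rw [Finset.mem_singleton.1 hj]⟩
  | cons a s ha hs ih =>
    obtain ⟨i, hi, h⟩ := ih
    rcases hS (f a) (f i) with h1 | h1
    · refine ⟨a, by simp, fun j hj => ?_⟩
      rcases Finset.mem_cons.1 hj with rfl | hj
      · exact dvd_rfl
      · exact h1.trans (h j hj)
    · refine ⟨i, by simp [hi], fun j hj => ?_⟩
      rcases Finset.mem_cons.1 hj with rfl | hj
      · exact h1
      · exact h j hj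

/-- The solutions of every homogeneous system are parametrised by tuples of elements annihilated
by given scalars. -/
theorem diag (hS : ∀ a b : S, a ∣ b ∨ b ∣ a) (m : ℕ) : ∀ (n : ℕ) (A : Fin n → Fin m → S),
    ∃ (H : Fin m → Fin m → S) (d : Fin m → S),
      ∀ (N : Type u) [AddCommGroup N] [Module S N] (v : Fin m → N),
        (∀ i, ∑ j, A i j • v j = 0) ↔
          ∃ w : Fin m → N, (∀ j, d j • w j = 0) ∧ ∀ i, v i = ∑ j, H i j • w j := by
  classical
  induction m with
  | zero =>
    intro n A
    refine ⟨fun i => Fin.elim0 i, fun i => Fin.elim0 i, fun N _ _ v => ?_⟩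
    constructor
    · intro _
      exact ⟨fun i => Fin.elim0 i, fun i => Fin.elim0 i, fun i => Fin.elim0 i⟩
    · intro _ i
      simp
  | succ m ih =>
    intro n A
    by_cases hn : n = 0
    · subst hn
      refine ⟨fun i j => if i = j then 1 else 0, fun _ => 0, fun N _ _ v => ?_⟩
      constructor
      · intro _
        refine ⟨v, fun j => by simp, fun i => by simp⟩
      · intro _ i
        exact Fin.elim0 i
    · obtain ⟨⟨i0, j0⟩, -, hdiv⟩ := exists_dvd_all hS
        (fun q : Fin n × Fin (m + 1) => A q.1 q.2) Finset.univ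
        ⟨(⟨0, Nat.pos_of_ne_zero hn⟩, 0), Finset.mem_univ _⟩
      have hrow : ∀ j, A i0 j0 ∣ A i0 j := fun j => hdiv (i0, j) (Finset.mem_univ _)
      have hcol : ∀ i, A i0 j0 ∣ A i j0 := fun i => hdiv (i, j0) (Finset.mem_univ _)
      choose c hc using hrow
      choose a ha using hcol
      obtain ⟨H', d', h'⟩ := ih n (fun i j => A i (j0.succAbove j) - a i * A i0 (j0.succAbove j))
      refine ⟨Fin.insertNth (α := fun _ => Fin (m + 1) → S) j0
        (Fin.insertNth (α := fun _ => S) j0 1
          (fun l => -∑ j, c (j0.succAbove j) * H' j l))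
        (fun i => Fin.insertNth (α := fun _ => S) j0 0 (H' i)),
        Fin.insertNth (α := fun _ => S) j0 (A i0 j0) d', fun N _ _ v => ?_⟩
      -- the system in terms of the distinguished combination
      have key : (∀ i, ∑ j, A i j • v j = 0) ↔
          (A i0 j0 • (v j0 + ∑ j, c (j0.succAbove j) • v (j0.succAbove j)) = 0 ∧
            ∀ i, ∑ j, (A i (j0.succAbove j) - a i * A i0 (j0.succAbove j)) •
              v (j0.succAbove j) = 0) := by
        have e0 : A i0 j0 • (v j0 + ∑ j, c (j0.succAbove j) • v (j0.succAbove j)) =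
            ∑ j, A i0 j • v j := by
          rw [Fin.sum_univ_succAbove _ j0, smul_add, Finset.smul_sum]
          congr 1
          refine Finset.sum_congr rfl fun j _ => ?_
          rw [smul_smul, ← hc]
        have e1 : ∀ i, ∑ j, (A i (j0.succAbove j) - a i * A i0 (j0.succAbove j)) •
              v (j0.succAbove j) = ∑ j, A i j • v j - a i • ∑ j, A i0 j • v j := by
          intro i
          rw [Fin.sum_univ_succAbove (fun j => A i j • v j) j0,
            Fin.sum_univ_succAbove (fun j => A i0 j • v j) j0, smul_add, Finset.smul_sum,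
            smul_smul, mul_comm (a i) (A i0 j0), ← ha]
          simp only [sub_smul, Finset.sum_sub_distrib, mul_smul]
          abel
        rw [e0]
        simp only [e1]
        constructor
        · intro h
          exact ⟨h i0, fun i => by rw [h i, h i0, smul_zero, sub_zero]⟩
        · rintro ⟨h0, h1⟩ i
          have := h1 i
          rwa [h0, smul_zero, sub_zero] at this
      rw [key, h' N (fun j => v (j0.succAbove j))]
      constructor
      · rintro ⟨hu, w', hw', hv'⟩
        refine ⟨Fin.insertNth (α := fun _ => N) j0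
          (v j0 + ∑ j, c (j0.succAbove j) • v (j0.succAbove j)) w', ?_, ?_⟩
        · rw [Fin.forall_iff_succAbove j0]
          refine ⟨?_, fun j => ?_⟩
          · simpa using hu
          · simpa using hw' j
        · rw [Fin.forall_iff_succAbove j0]
          refine ⟨?_, fun i => ?_⟩
          · rw [Fin.sum_univ_succAbove _ j0]
            simp only [Fin.insertNth_apply_same, Fin.insertNth_apply_succAbove, one_smul,
              neg_smul, Finset.sum_neg_distrib]
            have e : ∑ l, (∑ j, c (j0.succAbove j) * H' j l) • w' l =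
                ∑ j, c (j0.succAbove j) • v (j0.succAbove j) := by
              simp only [Finset.sum_smul, mul_smul]
              rw [Finset.sum_comm]
              refine Finset.sum_congr rfl fun j _ => ?_
              rw [← Finset.smul_sum, ← hv' j]
            rw [e]
            abel
          · rw [Fin.sum_univ_succAbove _ j0]
            simp only [Fin.insertNth_apply_same, Fin.insertNth_apply_succAbove, zero_smul,
              zero_add]
            exact hv' i
      · rintro ⟨w, hw, hv⟩
        rw [Fin.forall_iff_succAbove j0] at hw hv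
        obtain ⟨hw0, hw1⟩ := hw
        obtain ⟨hv0, hv1⟩ := hv
        simp only [Fin.sum_univ_succAbove _ j0, Fin.insertNth_apply_same,
          Fin.insertNth_apply_succAbove, one_smul, zero_smul, zero_add, neg_smul,
          Finset.sum_neg_distrib] at hw0 hw1 hv0 hv1
        have e : ∑ l, (∑ j, c (j0.succAbove j) * H' j l) • w (j0.succAbove l) =
            ∑ j, c (j0.succAbove j) • v (j0.succAbove j) := by
          simp only [Finset.sum_smul, mul_smul]
          rw [Finset.sum_comm]
          refine Finset.sum_congr rfl fun j _ => ?_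
          rw [← Finset.smul_sum, ← hv1 j]
        refine ⟨?_, fun j => w (j0.succAbove j), hw1, hv1⟩
        rw [hv0, e]
        simpa using hw0

/-- Implications between pp conditions can be tested in cyclic modules `S / (d)`. -/
theorem le_of_cyclic (hS : ∀ a b : S, a ∣ b ∨ b ∣ a) (φ ψ : PP S)
    (h : ∀ d : S, φ.sol (S ⧸ Ideal.span {d}) ≤ ψ.sol (S ⧸ Ideal.span {d}))
    (N : Type u) [AddCommGroup N] [Module S N] : φ.sol N ≤ ψ.sol N := by
  classical
  obtain ⟨H, d, hd⟩ := diag hS (φ.k + 1) φ.n (fun i => Fin.cons (φ.a i) (φ.b i))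
  intro x hx
  obtain ⟨y, hy⟩ := hx
  have h1 : ∀ i, ∑ j, (Fin.cons (φ.a i) (φ.b i) : Fin (φ.k + 1) → S) j •
      (Fin.cons x y : Fin (φ.k + 1) → N) j = 0 := by
    intro i
    rw [Fin.sum_univ_succ]
    simpa using hy i
  obtain ⟨w, hw, hv⟩ := (hd N (Fin.cons x y)).1 h1
  have hx0 : x = ∑ j, H 0 j • w j := by simpa using hv 0
  rw [hx0]
  refine AddSubgroup.sum_mem _ fun j _ => ?_
  -- the component in `S / (d j)`
  have hz : d j • (Ideal.Quotient.mk (Ideal.span {d j}) 1) = 0 := by
    rw [← Ideal.Quotient.mk_eq_mk, ← Submodule.Quotient.mk_smul, smul_eq_mul, mul_one,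
      Submodule.Quotient.mk_eq_zero]
    exact Ideal.mem_span_singleton_self _
  have h2 := (hd (S ⧸ Ideal.span {d j})
    (fun i => H i j • (Ideal.Quotient.mk (Ideal.span {d j}) 1))).2
    ⟨Pi.single j (Ideal.Quotient.mk (Ideal.span {d j}) 1), fun l => by
      by_cases hl : l = j
      · subst hl
        rw [Pi.single_eq_same]
        exact hz
      · rw [Pi.single_eq_of_ne hl, smul_zero], fun i => by
      rw [Finset.sum_eq_single j (fun l _ hl => by rw [Pi.single_eq_of_ne hl, smul_zero])
        (fun hj => absurd (Finset.mem_univ j) hj), Pi.single_eq_same]⟩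
  have h3 : H 0 j • (Ideal.Quotient.mk (Ideal.span {d j}) 1) ∈
      φ.sol (S ⧸ Ideal.span {d j}) := by
    refine ⟨fun l => H l.succ j • (Ideal.Quotient.mk (Ideal.span {d j}) 1), fun i => ?_⟩
    have := h2 i
    rw [Fin.sum_univ_succ] at this
    simpa only [Fin.cons_zero, Fin.cons_succ] using this
  have h4 := ψ.map_sol
    ((Ideal.span {d j}).liftQ (LinearMap.toSpanSingleton S N (w j)) (by
      rw [Ideal.span, Submodule.span_le, Set.singleton_subset_iff]
      show LinearMap.toSpanSingleton S N (w j) (d j) = 0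
      rw [LinearMap.toSpanSingleton_apply]
      exact hw j)) (h (d j) h3)
  have h5 : ((Ideal.span {d j}).liftQ (LinearMap.toSpanSingleton S N (w j)) (by
      rw [Ideal.span, Submodule.span_le, Set.singleton_subset_iff]
      show LinearMap.toSpanSingleton S N (w j) (d j) = 0
      rw [LinearMap.toSpanSingleton_apply]
      exact hw j)) (H 0 j • (Ideal.Quotient.mk (Ideal.span {d j}) 1)) = H 0 j • w j := by
    rw [map_smul]
    congr 1
    rw [← Ideal.Quotient.mk_eq_mk]
    erw [Submodule.liftQ_apply]
    simp
  rw [h5] at h4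
  exact h4

/-- Solution sets of pp conditions in a cyclic module are comparable. -/
theorem sol_total (hS : ∀ a b : S, a ∣ b ∨ b ∣ a) (I : Ideal S) (α β : PP S) :
    α.sol (S ⧸ I) ≤ β.sol (S ⧸ I) ∨ β.sol (S ⧸ I) ≤ α.sol (S ⧸ I) := by
  by_cases h : α.sol (S ⧸ I) ≤ β.sol (S ⧸ I)
  · exact Or.inl h
  · right
    rw [SetLike.not_le_iff_exists] at h
    obtain ⟨p, hp, hp'⟩ := h
    intro q hq
    obtain ⟨P, rfl⟩ := Ideal.Quotient.mk_surjective p
    obtain ⟨Q, rfl⟩ := Ideal.Quotient.mk_surjective q
    have hsm : ∀ (γ : PP S) (c t : S), Ideal.Quotient.mk I t ∈ γ.sol (S ⧸ I) →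
        Ideal.Quotient.mk I (t * c) ∈ γ.sol (S ⧸ I) := by
      intro γ c t ht
      have h1 := γ.map_sol (LinearMap.lsmul S (S ⧸ I) c) ht
      have h2 : LinearMap.lsmul S (S ⧸ I) c (Ideal.Quotient.mk I t) =
          Ideal.Quotient.mk I (t * c) := by
        rw [LinearMap.lsmul_apply, mul_comm, ← smul_eq_mul, ← Ideal.Quotient.mk_eq_mk,
          ← Submodule.Quotient.mk_smul]
        rfl
      rw [h2] at h1
      exact h1
    rcases hS P Q with ⟨c, rfl⟩ | ⟨c, rfl⟩
    · exact hsm α c P hp
    · exact absurd (hsm β c Q hq) hp'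

theorem goalChain : GoalChain.{u} := by
  intro S _ _ hS x y z
  obtain ⟨φ, rfl⟩ := toL_surjective (∅ : Set (PP S × PP S)) x
  obtain ⟨ψ, rfl⟩ := toL_surjective (∅ : Set (PP S × PP S)) y
  obtain ⟨χ, rfl⟩ := toL_surjective (∅ : Set (PP S × PP S)) z
  rw [← toL_sup, ← toL_inf, ← toL_inf, ← toL_inf, ← toL_sup, toL_le]
  intro M
  refine le_of_cyclic hS _ _ (fun d => ?_) M.1
  rw [PP.sol_inf, PP.sol_sup, PP.sol_sup, PP.sol_inf, PP.sol_inf]
  rcases sol_total hS (Ideal.span {d}) ψ χ with h | h
  · rw [sup_eq_right.2 h]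
    exact le_sup_right
  · rw [sup_eq_left.2 h]
    exact le_sup_left

end Pool.Agent.Helper97.CR
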