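import Pool.Agent.Helper39.CR.GoalsT

/-!
Project CAR (MP_d97caa_an), stage 3: the groups of the graded matrix algebras (packet TGR).
-/

open scoped ComplexOrder ZeroAtInfty
open TopologicalSpace

namespace Pool.Agent.Helper97.CR

open Pool.Agent.Helper34.CAR Pool.Agent.Helper39.Uct Pool.Agent.Helper39.CR

noncomputable section

/-- The matrices supported on the block `{x | w x = γ}`. -/
def blk {I Γ : Type} [Fintype I] [DecidableEq I] (B : Type) [CStarAlgebra B] (w : I → Γ) (γ : Γ) :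
    NonUnitalStarSubalgebra ℂ (Mt I B) where
  carrier := {a | ∀ x y, ¬ (w x = γ ∧ w y = γ) → a x y = 0}
  add_mem' {a b} ha hb x y h := by rw [Mt.add_apply, ha x y h, hb x y h, add_zero]
  zero_mem' x y _ := rfl
  mul_mem' {a b} ha hb x y h := by
    rw [Mt.mul_apply]
    refine Finset.sum_eq_zero fun k _ => ?_
    by_cases h1 : w x = γ
    · rw [hb k y (fun h2 => h ⟨h1, h2.2⟩), mul_zero]
    · rw [ha x k (fun h2 => h1 h2.1), zero_mul]
  smul_mem' c a ha x y h := by rw [Mt.smul_apply, ha x y h, smul_zero]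
  star_mem' {a} ha x y h := by
    rw [Mt.star_apply, ha y x (fun h2 => h ⟨h2.2, h2.1⟩), star_zero]

instance {I Γ : Type} [Fintype I] [DecidableEq I] (B : Type) [CStarAlgebra B] (w : I → Γ) (γ : Γ) :
    IsClosed ((blk B w γ : NonUnitalStarSubalgebra ℂ (Mt I B)) : Set (Mt I B)) := by
  have h : ((blk B w γ : NonUnitalStarSubalgebra ℂ (Mt I B)) : Set (Mt I B)) =
      ⋂ x, ⋂ y, ⋂ (_ : ¬ (w x = γ ∧ w y = γ)), {a | a x y = 0} := by
    ext a
    simp only [Set.mem_iInter]
    rfl
  rw [h]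
  exact isClosed_iInter fun x => isClosed_iInter fun y => isClosed_iInter fun _ =>
    isClosed_eq (continuous_entry x y) continuous_const

/-- The block as a C*-algebra. -/
abbrev Bk {I Γ : Type} [Fintype I] [DecidableEq I] (B : Type) [CStarAlgebra B] (w : I → Γ)
    (γ : Γ) : Type := ↥(blk B w γ)

section

variable {I Γ : Type} [Fintype I] [DecidableEq I] (B : Type) [CStarAlgebra B] (w : I → Γ)

theorem blk_le (γ : Γ) (a : Mt I B) (ha : a ∈ blk B w γ) : a ∈ grd B w := by
  intro x y h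
  refine ha x y fun h2 => h (h2.1.trans h2.2.symm)

/-- The inclusion of a block. -/
def sH (γ : Γ) : Bk B w γ →⋆ₙₐ[ℂ] Gd B w where
  toFun a := ⟨a.1, blk_le B w γ a.1 a.2⟩
  map_smul' _ _ := rfl
  map_zero' := rfl
  map_add' _ _ := rfl
  map_mul' _ _ := rfl
  map_star' _ := rfl

open Classical in
/-- The block of a matrix. -/
def cut (γ : Γ) (a : Mt I B) : Mt I B := Mt.of fun x y => if w x = γ ∧ w y = γ then a x y else 0

theorem cut_apply (γ : Γ) (a : Mt I B) (x y : I) (h : w x = γ ∧ w y = γ) :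
    cut B w γ a x y = a x y := by
  unfold cut
  rw [Mt.of_apply, if_pos h]

theorem cut_apply_not (γ : Γ) (a : Mt I B) (x y : I) (h : ¬ (w x = γ ∧ w y = γ)) :
    cut B w γ a x y = 0 := by
  unfold cut
  rw [Mt.of_apply, if_neg h]

theorem cut_mem (γ : Γ) (a : Mt I B) : cut B w γ a ∈ blk B w γ := fun x y h =>
  cut_apply_not B w γ a x y h

/-- The restriction to a block. -/
def rH (γ : Γ) : Gd B w →⋆ₙₐ[ℂ] Bk B w γ where
  toFun a := ⟨cut B w γ a.1, cut_mem B w γ a.1⟩
  map_smul' c a := Subtype.ext (by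
    ext x y
    change cut B w γ (c • a.1) x y = c • cut B w γ a.1 x y
    by_cases h : w x = γ ∧ w y = γ
    · rw [cut_apply B w γ _ x y h, cut_apply B w γ _ x y h, Mt.smul_apply]
    · rw [cut_apply_not B w γ _ x y h, cut_apply_not B w γ _ x y h, smul_zero])
  map_zero' := Subtype.ext (by
    ext x y
    change cut B w γ 0 x y = 0
    by_cases h : w x = γ ∧ w y = γ
    · rw [cut_apply B w γ _ x y h, Mt.zero_apply]
    · rw [cut_apply_not B w γ _ x y h])
  map_add' a b := Subtype.ext (by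
    ext x y
    change cut B w γ (a.1 + b.1) x y = cut B w γ a.1 x y + cut B w γ b.1 x y
    by_cases h : w x = γ ∧ w y = γ
    · rw [cut_apply B w γ _ x y h, cut_apply B w γ _ x y h, cut_apply B w γ _ x y h, Mt.add_apply]
    · rw [cut_apply_not B w γ _ x y h, cut_apply_not B w γ _ x y h, cut_apply_not B w γ _ x y h,
        add_zero])
  map_mul' a b := Subtype.ext (by
    ext x y
    change cut B w γ (a.1 * b.1) x y = (cut B w γ a.1 * cut B w γ b.1) x y
    rw [Mt.mul_apply]
    by_cases h : w x = γ ∧ w y = γ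
    · rw [cut_apply B w γ _ x y h, Mt.mul_apply]
      refine Finset.sum_congr rfl fun k _ => ?_
      by_cases hk : w k = γ
      · rw [cut_apply B w γ _ x k ⟨h.1, hk⟩, cut_apply B w γ _ k y ⟨hk, h.2⟩]
      · rw [cut_apply_not B w γ _ x k (fun h2 => hk h2.2), a.2 x k (fun h2 => hk (h2.symm.trans h.1)),
          zero_mul, zero_mul]
    · rw [cut_apply_not B w γ _ x y h]
      symm
      refine Finset.sum_eq_zero fun k _ => ?_
      by_cases h1 : w x = γ
      · rw [cut_apply_not B w γ _ k y (fun h2 => h ⟨h1, h2.2⟩), mul_zero]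
      · rw [cut_apply_not B w γ _ x k (fun h2 => h1 h2.1), zero_mul])
  map_star' a := Subtype.ext (by
    ext x y
    change cut B w γ (star a.1) x y = star (cut B w γ a.1) x y
    rw [Mt.star_apply]
    by_cases h : w x = γ ∧ w y = γ
    · rw [cut_apply B w γ _ x y h, cut_apply B w γ _ y x ⟨h.2, h.1⟩, Mt.star_apply]
    · rw [cut_apply_not B w γ _ x y h, cut_apply_not B w γ _ y x (fun h2 => h ⟨h2.2, h2.1⟩),
        star_zero])

theorem single_mem_blk {γ : Γ} {x y : I} (hx : w x = γ) (hy : w y = γ) (b : B) :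
    (Mt.single x y b : Mt I B) ∈ blk B w γ := by
  intro x' y' h
  rw [Mt.single_apply, if_neg]
  rintro ⟨rfl, rfl⟩
  exact h ⟨hx, hy⟩

/-- The matrix units of a block. -/
def eB (γ : Γ) (x y : {x : I // w x = γ}) : B →ₗ[ℂ] Bk B w γ where
  toFun b := ⟨Mt.single x.1 y.1 b, single_mem_blk B w x.2 y.2 b⟩
  map_add' a b := Subtype.ext (by
    ext x' y'
    change (Mt.single x.1 y.1 (a + b) : Mt I B) x' y' =
      (Mt.single x.1 y.1 a : Mt I B) x' y' + (Mt.single x.1 y.1 b : Mt I B) x' y'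
    rw [Mt.single_apply, Mt.single_apply, Mt.single_apply]
    split_ifs <;> simp)
  map_smul' c b := Subtype.ext (by
    ext x' y'
    change (Mt.single x.1 y.1 (c • b) : Mt I B) x' y' = c • (Mt.single x.1 y.1 b : Mt I B) x' y'
    rw [Mt.single_apply, Mt.single_apply]
    split_ifs <;> simp)

theorem blk_coe_sum {κ : Type} (γ : Γ) (s : Finset κ) (f : κ → Bk B w γ) :
    ((∑ k ∈ s, f k : Bk B w γ) : Mt I B) = ∑ k ∈ s, (f k : Mt I B) := by
  classical
  induction s using Finset.induction_on with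
  | empty => rfl
  | insert a s ha ih =>
    rw [Finset.sum_insert ha, Finset.sum_insert ha, ← ih]
    rfl

theorem gd_coe_sum {κ : Type} (s : Finset κ) (f : κ → Gd B w) :
    ((∑ k ∈ s, f k : Gd B w) : Mt I B) = ∑ k ∈ s, (f k : Mt I B) := by
  classical
  induction s using Finset.induction_on with
  | empty => rfl
  | insert a s ha ih =>
    rw [Finset.sum_insert ha, Finset.sum_insert ha, ← ih]
    rfl

theorem munits (γ : Γ) [Fintype {x : I // w x = γ}] : MUnits (eB B w γ) where
  mul i j k a b := Subtype.ext (Mt.single_mul_single i.1 j.1 k.1 a b)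
  mul0 i j k l a b h := Subtype.ext
    (Mt.single_mul_single_ne (fun h2 => h (Subtype.ext h2)) i.1 l.1 a b)
  star i j a := Subtype.ext (Mt.star_single i.1 j.1 a)
  inj i j a h := by
    have h1 : (Mt.single i.1 j.1 a : Mt I B) = 0 := congrArg Subtype.val h
    have h2 : (Mt.single i.1 j.1 a : Mt I B) i.1 j.1 = 0 := by rw [h1, Mt.zero_apply]
    rwa [Mt.single_apply, if_pos ⟨rfl, rfl⟩] at h2
  span a := by
    refine ⟨fun i j => a.1 i.1 j.1, Subtype.ext ?_⟩
    rw [blk_coe_sum]
    ext x y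
    rw [Mt.sum_apply]
    have key : ∀ i : {x : I // w x = γ},
        ((∑ j, eB B w γ i j (a.1 i.1 j.1) : Bk B w γ) : Mt I B) x y =
          ∑ j : {x : I // w x = γ}, if x = i.1 ∧ y = j.1 then a.1 i.1 j.1 else 0 := by
      intro i
      rw [blk_coe_sum, Mt.sum_apply]
      refine Finset.sum_congr rfl fun j _ => ?_
      change (Mt.single i.1 j.1 (a.1 i.1 j.1) : Mt I B) x y = _
      rw [Mt.single_apply]
    simp only [key]
    by_cases hx : w x = γ
    · rw [Finset.sum_eq_single (⟨x, hx⟩ : {x : I // w x = γ})]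
      · by_cases hy : w y = γ
        · rw [Finset.sum_eq_single (⟨y, hy⟩ : {x : I // w x = γ})]
          · simp
          · intro j _ hj
            rw [if_neg]
            rintro ⟨-, h2⟩
            exact hj (Subtype.ext h2.symm)
          · intro h
            exact absurd (Finset.mem_univ _) h
        · rw [a.2 x y (fun h => hy h.2)]
          symm
          refine Finset.sum_eq_zero fun j _ => ?_
          rw [if_neg]
          rintro ⟨-, h2⟩
          exact hy (h2 ▸ j.2)
      · intro i _ hi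
        refine Finset.sum_eq_zero fun j _ => ?_
        rw [if_neg]
        rintro ⟨h1, -⟩
        exact hi (Subtype.ext h1.symm)
      · intro h
        exact absurd (Finset.mem_univ _) h
    · rw [a.2 x y (fun h => hx h.1)]
      symm
      refine Finset.sum_eq_zero fun i _ => Finset.sum_eq_zero fun j _ => ?_
      rw [if_neg]
      rintro ⟨h1, -⟩
      exact hx (h1 ▸ i.2)

/-- The corner embedding into a block. -/
def ck (γ : Γ) (x : I) (hx : w x = γ) : B →⋆ₙₐ[ℂ] Bk B w γ :=
  (rH B w γ).comp (cd B w x)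

theorem cut_single (γ : Γ) (x : I) (hx : w x = γ) (b : B) :
    cut B w γ (Mt.single x x b) = Mt.single x x b := by
  ext y z
  by_cases h : w y = γ ∧ w z = γ
  · rw [cut_apply B w γ _ y z h]
  · rw [cut_apply_not B w γ _ y z h, Mt.single_apply, if_neg]
    rintro ⟨rfl, rfl⟩
    exact h ⟨hx, hx⟩

theorem cut_single_ne (γ : Γ) (x : I) (hx : w x ≠ γ) (b : B) :
    cut B w γ (Mt.single x x b) = 0 := by
  ext y z
  by_cases h : w y = γ ∧ w z = γ
  · rw [cut_apply B w γ _ y z h, Mt.single_apply, if_neg, Mt.zero_apply]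
    rintro ⟨rfl, rfl⟩
    exact hx h.1
  · rw [cut_apply_not B w γ _ y z h, Mt.zero_apply]

theorem ck_apply (γ : Γ) (x : I) (hx : w x = γ) (b : B) :
    ck B w γ x hx b = eB B w γ ⟨x, hx⟩ ⟨x, hx⟩ b :=
  Subtype.ext (cut_single B w γ x hx b)

theorem cd_eq (γ : Γ) (x : I) (hx : w x = γ) : cd B w x = (sH B w γ).comp (ck B w γ x hx) :=
  DFunLike.ext _ _ fun b => Subtype.ext (cut_single B w γ x hx b).symm

end

theorem tgr (hz : S_TZ) (hadd : S_TADD) (hcor : S_TCOR) : S_TGR := by
  classical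
  intro T i B _ _ I Γ _ _ w
  obtain ⟨hz1, -, -⟩ := hz T
  have hst : ∀ (γ : Γ) (x : I) (hx : w x = γ), Function.Bijective (T.map i (ck B w γ x hx)) :=
    fun γ x hx => T.stable i B (Bk B w γ) {x : I // w x = γ} (eB B w γ) (munits B w γ) ⟨x, hx⟩ _
      (ck_apply B w γ x hx)
  have hco : ∀ (γ : Γ) (x y : I) (hx : w x = γ) (hy : w y = γ),
      T.map i (ck B w γ x hx) = T.map i (ck B w γ y hy) := fun γ x y hx hy =>
    hcor T i B (Bk B w γ) {x : I // w x = γ} (eB B w γ) (munits B w γ) ⟨x, hx⟩ ⟨y, hy⟩ _ _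
      (ck_apply B w γ x hx) (ck_apply B w γ y hy)
  have hcd : ∀ (γ : Γ) (x : I) (hx : w x = γ) (y : T.F i (Gd B w)),
      T.map i (cd B w x) y = T.map i (ck B w γ x hx) (T.map i (sH B w γ) y) := by
    intro γ x hx y
    rw [cd_eq B w γ x hx, T.map_comp]
  have hrc : ∀ (γ : Γ) (x : I) (hx : w x = γ) (y : T.F i (Bk B w γ)),
      T.map i (cd B w x) (T.map i (rH B w γ) y) = T.map i (ck B w γ x hx) y := by
    intro γ x hx y
    rw [← T.map_comp]
    rfl
  have hrc0 : ∀ (γ : Γ) (x : I), w x ≠ γ → ∀ (y : T.F i (Bk B w γ)),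
      T.map i (cd B w x) (T.map i (rH B w γ) y) = 0 := by
    intro γ x hx y
    rw [← T.map_comp]
    exact hz1 i B (Bk B w γ) _ (fun b => Subtype.ext (cut_single_ne B w γ x hx b)) y
  let J := Set.range w
  letI : Fintype J := Fintype.ofFinite J
  have hsum : ∀ y : T.F i (Gd B w),
      y = ∑ γ : J, T.map i (rH B w γ.1) (T.map i (sH B w γ.1) y) := by
    intro y
    have h1 := hadd T i (Gd B w) (Gd B w) J (fun γ => (sH B w γ.1).comp (rH B w γ.1))
      (NonUnitalStarAlgHom.id ℂ (Gd B w)) ?_ ?_ y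
    · rw [T.map_id] at h1
      rw [h1]
      refine Finset.sum_congr rfl fun γ _ => ?_
      rw [← h1, T.map_comp]
    · intro γ γ' hne a b
      refine Subtype.ext ?_
      change cut B w γ.1 a.1 * cut B w γ'.1 b.1 = 0
      ext x y
      rw [Mt.mul_apply, Mt.zero_apply]
      refine Finset.sum_eq_zero fun k _ => ?_
      by_cases hk : w k = γ.1
      · rw [cut_apply_not B w γ'.1 _ k y, mul_zero]
        rintro ⟨h2, -⟩
        exact hne (Subtype.ext (hk.symm.trans h2))
      · rw [cut_apply_not B w γ.1 _ x k (fun h2 => hk h2.2), zero_mul]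
    · intro a
      refine Subtype.ext ?_
      rw [gd_coe_sum]
      ext x y
      rw [Mt.sum_apply]
      change a.1 x y = ∑ γ : J, cut B w γ.1 a.1 x y
      rw [Finset.sum_eq_single (⟨w x, x, rfl⟩ : J)]
      · by_cases hxy : w x = w y
        · rw [cut_apply B w _ _ x y ⟨rfl, hxy.symm⟩]
        · rw [cut_apply_not B w _ _ x y (fun h2 => hxy h2.2.symm), a.2 x y hxy]
      · intro γ _ hγ
        rw [cut_apply_not B w _ _ x y]
        rintro ⟨h2, -⟩
        exact hγ (Subtype.ext h2.symm)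
      · intro h
        exact absurd (Finset.mem_univ _) h
  refine ⟨?_, ?_, ?_⟩
  · intro x y hxy
    refine DFunLike.ext _ _ fun z => ?_
    rw [hcd (w y) x hxy, hcd (w y) y rfl, hco (w y) x y hxy rfl]
  · intro g
    have hch : ∀ γ : J, ∃ z : T.F i (Bk B w γ.1), ∀ (x : I) (hx : w x = γ.1),
        T.map i (ck B w γ.1 x hx) z = g γ.1 := by
      rintro ⟨γ, x₀, hx₀⟩
      obtain ⟨z, hz⟩ := (hst γ x₀ hx₀).2 (g γ)
      refine ⟨z, fun x hx => ?_⟩
      rw [hco γ x x₀ hx hx₀]
      exact hz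
    choose z hz using hch
    refine ⟨∑ γ : J, T.map i (rH B w γ.1) (z γ), fun x => ?_⟩
    rw [map_sum, Finset.sum_eq_single (⟨w x, x, rfl⟩ : J)]
    · rw [hrc (w x) x rfl]
      exact hz ⟨w x, x, rfl⟩ x rfl
    · intro γ _ hγ
      exact hrc0 γ.1 x (fun h => hγ (Subtype.ext h.symm)) _
    · intro h
      exact absurd (Finset.mem_univ _) h
  · intro y hy
    rw [hsum y]
    refine Finset.sum_eq_zero fun γ _ => ?_
    obtain ⟨γ, x, hx⟩ := γ
    have h1 := hy x
    rw [hcd γ x hx] at h1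
    have h2 : T.map i (sH B w γ) y = 0 := by
      apply (hst γ x hx).1
      rw [h1, map_zero]
    change T.map i (rH B w γ) (T.map i (sH B w γ) y) = 0
    rw [h2, map_zero]

end

end Pool.Agent.Helper97.CR
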